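import Pool.Agent.H29.SX.Targets
import Pool.Agent.H67.RD.PF

/-!
# Row DET of shx_modules (helper90): the determinant inequality
-/

set_option autoImplicit false

namespace Pool.Agent.H90.SX

open NumberField Height Finset Polynomial Pool.Agent.H24.RD Pool.Agent.H23.RDD Pool.Agent.H29.RQ
  Pool.Agent.H29.SX Pool.Agent.H67.RD

/-- the places where the maximum is not one -/
theorem dt_supp {M : Type} [Field M] [NumberField M] {R : ℕ} {x : Fin R → M} (hx : x ≠ 0) :
    (Function.mulSupport fun v : FinitePlace M => ⨆ i, v (x i)).Finite := by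
  classical
  obtain ⟨i0, hi0⟩ := Function.ne_iff.1 hx
  have hfin : (⋃ i ∈ (univ.filter fun i => x i ≠ 0 : Finset (Fin R)),
      Function.mulSupport fun v : FinitePlace M => v (x i)).Finite := by
    refine Set.Finite.biUnion (Finset.finite_toSet _) fun i hi => ?_
    have hi' : x i ≠ 0 := by
      have := Finset.mem_coe.1 hi
      rw [mem_filter] at this
      exact this.2
    exact FinitePlace.hasFiniteMulSupport hi'
  refine hfin.subset ?_
  intro v hv
  by_contra hcon
  apply hv
  have h1 : ∀ i, x i ≠ 0 → v (x i) = 1 := by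
    intro i hi
    by_contra h
    apply hcon
    rw [Set.mem_iUnion₂]
    exact ⟨i, by simp [hi], h⟩
  haveI : Nonempty (Fin R) := ⟨i0⟩
  refine le_antisymm (ciSup_le fun i => ?_) ?_
  · by_cases h : x i = 0
    · rw [h, map_zero]
      exact zero_le_one
    · exact (h1 i h).le
  · exact Finite.le_ciSup_of_le i0 (h1 i0 hi0).ge

theorem dt_log {M : Type} [Field M] [NumberField M] {R : ℕ} {x : Fin R → M} (hx : x ≠ 0)
    (S : Finset (FinitePlace M))
    (hS : Function.mulSupport (fun v : FinitePlace M => ⨆ i, v (x i)) ⊆ S) :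
    logHeight x = ∑ w : InfinitePlace M, (w.mult : ℝ) * Real.log (⨆ i, w (x i)) +
      ∑ v ∈ S, Real.log (⨆ i, v (x i)) := by
  obtain ⟨i0, hi0⟩ := Function.ne_iff.1 hx
  have hi0 : x i0 ≠ 0 := hi0
  have h1 : ∀ w : InfinitePlace M, 0 < ⨆ i, w (x i) := by
    intro w
    exact lt_of_lt_of_le (InfinitePlace.pos_iff.2 hi0) (Finite.le_ciSup_of_le i0 le_rfl)
  have h2 : ∀ v : FinitePlace M, 0 < ⨆ i, v (x i) := by
    intro w
    exact lt_of_lt_of_le (FinitePlace.pos_iff.2 hi0) (Finite.le_ciSup_of_le i0 le_rfl)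
  rw [logHeight_eq_log_mulHeight, NumberField.mulHeight_eq hx,
    finprod_eq_prod_of_mulSupport_subset _ hS,
    Real.log_mul (prod_ne_zero_iff.2 fun w _ => (pow_pos (h1 w) _).ne')
      (prod_ne_zero_iff.2 fun v _ => (h2 v).ne'),
    Real.log_prod (fun w _ => (pow_pos (h1 w) _).ne'), Real.log_prod (fun v _ => (h2 v).ne')]
  congr 1
  exact sum_congr rfl fun w _ => Real.log_pow _ _

/-- Leibniz -/
theorem dt_det {M s : Type} [Field M] [Fintype s] [DecidableEq s] (w : AbsoluteValue M ℝ)
    (D : Matrix s s M) (b : s → ℝ) (h : ∀ i j, w (D i j) ≤ b i) :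
    w D.det ≤ ((Fintype.card s).factorial : ℝ) * ∏ i, b i := by
  rw [Matrix.det_apply]
  refine le_trans (w.sum_le _ _) ?_
  have h1 : ∀ σ ∈ (univ : Finset (Equiv.Perm s)), w (Equiv.Perm.sign σ • ∏ i, D (σ i) i) ≤
      ∏ i, b i := by
    intro σ _
    have e1 : w (Equiv.Perm.sign σ • ∏ i, D (σ i) i) = w (∏ i, D (σ i) i) := by
      rcases Int.units_eq_one_or (Equiv.Perm.sign σ) with hs | hs
      · rw [hs, one_smul]
      · rw [hs, Units.neg_smul, one_smul, w.map_neg]
    rw [e1, map_prod, ← Equiv.prod_comp σ b]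
    exact prod_le_prod (fun i _ => w.nonneg _) fun i _ => h _ _
  refine le_trans (sum_le_sum h1) (le_of_eq ?_)
  rw [sum_const, card_univ, Fintype.card_perm, nsmul_eq_mul]

theorem dt_na {M : Type} [Field M] [NumberField M] (v : FinitePlace M) {s : Type} [DecidableEq s]
    (F : Finset s) (f : s → M) (b : ℝ) (hb : 0 ≤ b) (h : ∀ j ∈ F, v (f j) ≤ b) :
    v (∑ j ∈ F, f j) ≤ b := by
  induction F using Finset.induction_on with
  | empty => rw [sum_empty, map_zero]; exact hb
  | insert a F ha ih =>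
    rw [sum_insert ha]
    refine le_trans (FinitePlace.add_le v _ _) (max_le (h a (mem_insert_self a F))
      (ih fun j hj => h j (mem_insert_of_mem hj)))

theorem pf_DET (h1 : T_PFX) (h2 : T_DTL) : T_DET := by
  classical
  intro M _ _ p hp a ν R G A B hR hG hlin hloc
  obtain ⟨P, hP, hPsum, -⟩ := h1 M p hp
  have hp0 : (p : M) ≠ 0 := by exact_mod_cast hp.ne_zero
  set C : Fin a ⊕ Fin ν → Fin R → M := Sum.elim A B with hC
  have hCne : ∀ i, C i ≠ 0 := fun i => hlin.ne_zero i
  set e : Fin a ⊕ Fin ν ≃ Fin R := finSumFinEquiv.trans (finCongr hR) with he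
  set D : Matrix (Fin a ⊕ Fin ν) (Fin a ⊕ Fin ν) M := fun i j => C i (e j) with hD
  have hDdet : D.det ≠ 0 := by
    have l1 : LinearIndependent M D.row := by
      have := hlin.map' (LinearEquiv.funCongrLeft M M e).toLinearMap
        (LinearMap.ker_eq_bot.2 (LinearEquiv.funCongrLeft M M e).injective)
      exact this
    have l2 := (Matrix.linearIndependent_rows_iff_isUnit).1 l1
    rw [Matrix.isUnit_iff_isUnit_det] at l2
    exact l2.ne_zero
  -- the set of places
  have hfin : ((Function.mulSupport fun v : FinitePlace M => v D.det) ∪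
      ((P : Set (FinitePlace M)) ∪
        (⋃ i, Function.mulSupport fun v : FinitePlace M => ⨆ j, v (C i j)))).Finite :=
    (FinitePlace.hasFiniteMulSupport hDdet).union
      (P.finite_toSet.union (Set.finite_iUnion fun i => dt_supp (hCne i)))
  set S : Finset (FinitePlace M) := hfin.toFinset with hS
  have hS1 : Function.mulSupport (fun v : FinitePlace M => v D.det) ⊆ S := by
    intro v hv
    rw [hS, Set.Finite.coe_toFinset]
    exact Or.inl hv
  have hS2 : P ⊆ S := by
    intro v hv
    rw [hS, Set.Finite.mem_toFinset]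
    exact Or.inr (Or.inl hv)
  have hS3 : ∀ i, Function.mulSupport (fun v : FinitePlace M => ⨆ j, v (C i j)) ⊆ S := by
    intro i v hv
    rw [hS, Set.Finite.coe_toFinset]
    exact Or.inr (Or.inr (Set.mem_iUnion.2 ⟨i, hv⟩))
  have hpf := pf_formula S D.det hDdet hS1
  have hwpos : ∀ (w : InfinitePlace M) i, 0 < ⨆ j, w (C i j) := by
    intro w i
    obtain ⟨j0, hj0⟩ := Function.ne_iff.1 (hCne i)
    exact lt_of_lt_of_le (InfinitePlace.pos_iff.2 hj0) (Finite.le_ciSup_of_le j0 le_rfl)
  have hvpos : ∀ (v : FinitePlace M) i, 0 < ⨆ j, v (C i j) := by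
    intro v i
    obtain ⟨j0, hj0⟩ := Function.ne_iff.1 (hCne i)
    exact lt_of_lt_of_le (FinitePlace.pos_iff.2 hj0) (Finite.le_ciSup_of_le j0 le_rfl)
  have hcard : Fintype.card (Fin a ⊕ Fin ν) = R := by
    rw [Fintype.card_sum, Fintype.card_fin, Fintype.card_fin, hR]
  -- infinite places
  have hinf : ∀ w : InfinitePlace M, Real.log (w D.det) ≤ R * Real.log R +
      ∑ i, Real.log (⨆ j, w (C i j)) := by
    intro w
    have g1 := dt_det w.1 D (fun i => ⨆ j, w (C i j)) (fun i j =>
      Finite.le_ciSup (fun k => w (C i k)) (e j))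
    have g2 : 0 < w D.det := InfinitePlace.pos_iff.2 hDdet
    have g3 : (0 : ℝ) < ((Fintype.card (Fin a ⊕ Fin ν)).factorial : ℝ) := by
      exact_mod_cast Nat.factorial_pos _
    have g4 := Real.log_le_log g2 g1
    rw [Real.log_mul g3.ne' (prod_pos fun i _ => hwpos w i).ne',
      Real.log_prod (fun i _ => (hwpos w i).ne'), hcard] at g4
    have g5 : Real.log (R.factorial : ℝ) ≤ R * Real.log R := by
      rw [← Real.log_pow]
      apply Real.log_le_log (by exact_mod_cast Nat.factorial_pos _)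
      exact_mod_cast Nat.factorial_le_pow R
    linarith
  have hinf2 : ∑ w : InfinitePlace M, (w.mult : ℝ) * Real.log (w D.det) ≤
      (Module.finrank ℚ M : ℝ) * (R * Real.log R) +
      ∑ i, ∑ w : InfinitePlace M, (w.mult : ℝ) * Real.log (⨆ j, w (C i j)) := by
    rw [← InfinitePlace.sum_mult_eq, Nat.cast_sum, sum_mul, sum_comm, ← sum_add_distrib]
    refine sum_le_sum fun w _ => ?_
    rw [← mul_sum, ← mul_add]
    exact mul_le_mul_of_nonneg_left (hinf w) (Nat.cast_nonneg _)
  -- finite places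
  have hfinp : ∀ v ∈ S, Real.log (v D.det) ≤
      (if v ∈ P then ν * G * Real.log (v (p : M)) else 0) + ∑ i, Real.log (⨆ j, v (C i j)) := by
    intro v _
    have hna : IsNonarchimedean v.1 := fun x y => FinitePlace.add_le v x y
    have g2 : 0 < v D.det := FinitePlace.pos_iff.2 hDdet
    have hb : ∀ i j, v.1 (D i j) ≤ ⨆ k, v (C i k) := fun i j =>
      Finite.le_ciSup (fun k => v (C i k)) (e j)
    have key : ∀ ϖ : ℝ, 0 < ϖ → (∀ x : Fin a ⊕ Fin ν → M, (∀ j, v.1 (x j) ≤ 1) →
        (∀ i : Fin a, ∑ j, x j * D (Sum.inl i) j = 0) →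
        ∀ i : Fin ν, v.1 (∑ j, x j * D (Sum.inr i) j) ≤ ϖ * ⨆ k, v (C (Sum.inr i) k)) →
        Real.log (v D.det) ≤ ν * Real.log ϖ + ∑ i, Real.log (⨆ j, v (C i j)) := by
      intro ϖ hϖ hx
      have g1 := h2 M v.1 hna a ν D ϖ (fun i => ⨆ k, v (C i k)) hϖ.le hb
        (fun i => (hvpos v i).le) hx
      have g4 := Real.log_le_log g2 g1
      rw [Real.log_mul (pow_pos hϖ _).ne' (prod_pos fun i _ => hvpos v i).ne',
        Real.log_prod (fun i _ => (hvpos v i).ne'), Real.log_pow] at g4
      exact g4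
    split_ifs with hv
    · have hvp : 0 < v (p : M) := FinitePlace.pos_iff.2 hp0
      have k1 := key (v (p : M) ^ G) (Real.rpow_pos_of_pos hvp G) (by
        intro x hx1 hx2 i
        have hv' : v.1 (p : M) < 1 := (hP v).1 hv
        have hre : ∀ (y : Fin R → M), ∑ j, x j * y (e j) = ∑ k, x (e.symm k) * y k := by
          intro y
          rw [← Equiv.sum_comp e]
          refine sum_congr rfl fun j _ => ?_
          rw [Equiv.symm_apply_apply]
        have := hloc v hv' (fun k => x (e.symm k)) (fun k => hx1 _) (fun i' => by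
          rw [← hre]
          exact hx2 i') i (⨆ k, v (C (Sum.inr i) k)) (fun j =>
            Finite.le_ciSup (fun k => v (C (Sum.inr i) k)) j)
        rw [← hre] at this
        exact this)
      rw [Real.log_rpow hvp] at k1
      linarith
    · have k1 := key 1 one_pos (by
        intro x hx1 _ i
        rw [one_mul]
        refine dt_na v univ _ _ (hvpos v _).le fun j _ => ?_
        have : v (x j * D (Sum.inr i) j) = v (x j) * v (D (Sum.inr i) j) := map_mul v _ _
        rw [this]
        have h3 : v (D (Sum.inr i) j) ≤ ⨆ k, v (C (Sum.inr i) k) := hb _ _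
        have h4 : v (x j) ≤ 1 := hx1 j
        have h5 : 0 ≤ v (D (Sum.inr i) j) := apply_nonneg v _
        calc v (x j) * v (D (Sum.inr i) j) ≤ 1 * v (D (Sum.inr i) j) :=
              mul_le_mul_of_nonneg_right h4 h5
          _ ≤ _ := by rw [one_mul]; exact h3)
      rw [Real.log_one, mul_zero, zero_add] at k1
      linarith
  have hfin2 := sum_le_sum hfinp
  rw [sum_add_distrib, ← sum_filter, sum_comm] at hfin2
  have hf : S.filter (fun v => v ∈ P) = P := by
    ext v
    rw [mem_filter]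
    exact ⟨fun h => h.2, fun h => ⟨hS2 h, h⟩⟩
  rw [hf, ← mul_sum] at hfin2
  have hPs : ∑ v ∈ P, Real.log (v (p : M)) = - (Module.finrank ℚ M * Real.log p) := by
    rw [sum_neg_distrib] at hPsum
    have : ∑ v ∈ P, Real.log (v.1 (p : M)) = ∑ v ∈ P, Real.log (v (p : M)) := rfl
    rw [← this]
    linarith
  rw [hPs] at hfin2
  have htot : ∑ i, logHeight (C i) = ∑ i, logHeight (A i) + ∑ i, logHeight (B i) := by
    rw [Fintype.sum_sum_type]
    rfl
  have htot2 : ∑ i, logHeight (C i) =
      ∑ i, ∑ w : InfinitePlace M, (w.mult : ℝ) * Real.log (⨆ j, w (C i j)) +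
      ∑ i, ∑ v ∈ S, Real.log (⨆ j, v (C i j)) := by
    rw [← sum_add_distrib]
    exact sum_congr rfl fun i _ => dt_log (hCne i) S (hS3 i)
  rw [add_assoc, ← htot, htot2]
  nlinarith [hpf, hinf2, hfin2]

end Pool.Agent.H90.SX
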